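import Pool.Agent.J4H92.CM.Stm

set_option autoImplicit false

/-! # Project CM of helper92: removing the primes below `N` (helper82) -/

namespace Pool.Agent.J4H82.CM

open Pool.Agent.J4H92.CM

/-- the step: one prime -/
theorem step (f : ℕ → ℂ) (hmul : ∀ m n, 0 < m → 0 < n → f (m * n) = f m * f n) (s : ℂ) (p : ℕ)
    (hp : p.Prime) (L : ℂ) (hL : LSeriesHasSum (cut p f) s L) :
    LSeriesHasSum (cut (p + 1) f) s (L * (1 - f p * (p : ℂ) ^ (-s))) := by
  classical
  have hp0 : (p : ℂ) ≠ 0 := Nat.cast_ne_zero.2 hp.ne_zero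
  -- the values of `cut`
  have h1 : ∀ n, cut (p + 1) f n = if p ∣ n then 0 else cut p f n := by
    intro n
    unfold cut
    by_cases hpn : p ∣ n
    · rw [if_pos hpn, if_neg]
      intro h
      exact h p hp (Nat.lt_succ_self p) hpn
    · rw [if_neg hpn]
      by_cases h2 : ∀ q : ℕ, q.Prime → q < p → ¬ q ∣ n
      · rw [if_pos h2, if_pos]
        intro q hq hqp
        rcases Nat.lt_succ_iff_lt_or_eq.1 hqp with h3 | rfl
        · exact h2 q hq h3
        · exact hpn
      · rw [if_neg h2, if_neg]
        intro h3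
        exact h2 fun q hq hqp => h3 q hq (Nat.lt_succ_of_lt hqp)
  have h2 : ∀ n, 0 < n → cut p f (p * n) = f p * cut p f n := by
    intro n hn
    unfold cut
    have h3 : (∀ q : ℕ, q.Prime → q < p → ¬ q ∣ p * n) ↔ ∀ q : ℕ, q.Prime → q < p → ¬ q ∣ n := by
      refine forall_congr' fun q => forall_congr' fun hq => forall_congr' fun hqp => not_congr ?_
      rw [hq.dvd_mul]
      constructor
      · rintro (h4 | h4)
        · rw [Nat.prime_dvd_prime_iff_eq hq hp] at h4
          exact absurd h4 hqp.ne
        · exact h4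
      · exact Or.inr
    by_cases h4 : ∀ q : ℕ, q.Prime → q < p → ¬ q ∣ n
    · rw [if_pos h4, if_pos (h3.2 h4), hmul _ _ hp.pos hn]
    · rw [if_neg h4, if_neg (fun h5 => h4 (h3.1 h5)), mul_zero]
  -- the multiples of `p`
  let h : ℕ → ℂ := fun n => if p ∣ n then LSeries.term (cut p f) s n else 0
  have hinj : Function.Injective fun n : ℕ => p * n := fun a b hab =>
    Nat.eq_of_mul_eq_mul_left hp.pos hab
  have h3 : HasSum h (f p * (p : ℂ) ^ (-s) * L) := by
    rw [← hinj.hasSum_iff (f := h)]
    · have h4 : h ∘ (fun n : ℕ => p * n) = fun n => f p * (p : ℂ) ^ (-s) * LSeries.term (cut p f) s n := by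
        funext n
        simp only [Function.comp, h, dvd_mul_right, if_true]
        rcases Nat.eq_zero_or_pos n with rfl | hn
        · simp
        · rw [LSeries.term_of_ne_zero (Nat.mul_ne_zero hp.ne_zero hn.ne'), LSeries.term_of_ne_zero hn.ne',
            h2 n hn, Nat.cast_mul, Complex.natCast_mul_natCast_cpow, Complex.cpow_neg]
          field_simp
      rw [h4]
      exact HasSum.mul_left _ hL
    · intro n hn
      simp only [h]
      rw [if_neg]
      rintro ⟨k, rfl⟩
      exact hn ⟨k, rfl⟩
  have h5 : LSeries.term (cut (p + 1) f) s = fun n => LSeries.term (cut p f) s n - h n := by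
    funext n
    simp only [h]
    rcases Nat.eq_zero_or_pos n with rfl | hn
    · simp
    · rw [LSeries.term_of_ne_zero hn.ne', LSeries.term_of_ne_zero hn.ne', h1]
      by_cases hpn : p ∣ n
      · rw [if_pos hpn, if_pos hpn, sub_self, zero_div]
      · rw [if_neg hpn, if_neg hpn, sub_zero]
  unfold LSeriesHasSum at hL ⊢
  rw [h5]
  have h6 := hL.sub h3
  have e : L * (1 - f p * (p : ℂ) ^ (-s)) = L - f p * (p : ℂ) ^ (-s) * L := by ring
  rw [e]
  exact h6

theorem all (f : ℕ → ℂ) (hmul : ∀ m n, 0 < m → 0 < n → f (m * n) = f m * f n) (s : ℂ)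
    (hs : LSeriesSummable f s) (N : ℕ) : LSeriesHasSum (cut N f) s (LSeries f s * PE N f s) := by
  induction N with
  | zero =>
    have h1 : cut 0 f = f := by
      funext n
      unfold cut
      rw [if_pos]
      intro q _ hq
      exact absurd hq (Nat.not_lt_zero q)
    have h2 : PE 0 f s = 1 := by
      unfold PE
      rw [Nat.primesBelow_zero, Finset.prod_empty]
    rw [h1, h2, mul_one]
    exact hs.LSeriesHasSum
  | succ N ih =>
    by_cases hN : N.Prime
    · have h1 : PE (N + 1) f s = PE N f s * (1 - f N * (N : ℂ) ^ (-s)) := by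
        unfold PE
        rw [Nat.primesBelow_succ, if_pos hN, Finset.prod_insert (fun h => lt_irrefl _ (Nat.lt_of_mem_primesBelow h)), mul_comm]
      rw [h1, ← mul_assoc]
      exact step f hmul s N hN _ ih
    · have h1 : PE (N + 1) f s = PE N f s := by
        unfold PE
        rw [Nat.primesBelow_succ, if_neg hN]
      have h2 : cut (N + 1) f = cut N f := by
        funext n
        unfold cut
        have h3 : (∀ q : ℕ, q.Prime → q < N + 1 → ¬ q ∣ n) ↔ ∀ q : ℕ, q.Prime → q < N → ¬ q ∣ n := by
          constructor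
          · exact fun h q hq hqN => h q hq (Nat.lt_succ_of_lt hqN)
          · intro h q hq hqN
            rcases Nat.lt_succ_iff_lt_or_eq.1 hqN with h4 | rfl
            · exact h q hq h4
            · exact absurd hq hN
        by_cases h4 : ∀ q : ℕ, q.Prime → q < N → ¬ q ∣ n
        · rw [if_pos h4, if_pos (h3.2 h4)]
        · rw [if_neg h4, if_neg (fun h5 => h4 (h3.1 h5))]
      rw [h1, h2]
      exact ih

/-- (EUL) -/
theorem t_EUL : S_EUL := by
  intro f B N _ _ hmul hB s hs
  have h1 : LSeriesSummable f s := LSeriesSummable_of_bounded_of_one_lt_re (fun n _ => hB n) hs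
  have h2 := all f hmul s h1 N
  exact ⟨h2.LSeriesSummable, h2.LSeries_eq⟩

end Pool.Agent.J4H82.CM
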